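import Mathlib

/-!
Every finite loopless digraph has an arc-binding set-indexer attaining equality in the
bound `|f u \ f v| ≤ min |f u| (|f v| - 1)` on every arc.

Construction: the ground set is the set of unordered pairs of vertices (pairs of two equal
vertices included), and `f u` is the set of pairs containing `u`.
-/

namespace Pool.Agent.Results.MP_95765a_co.AllDigraphs

open Finset

theorem result {V : Type*} [Finite V] (D : Digraph V) (hloop : ∀ v, ¬ D.Adj v v) :
    ∃ (m : ℕ) (f : V → Finset (Fin m)), 0 < m ∧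
      Function.Injective f ∧
      (∀ u v u' v', D.Adj u v → D.Adj u' v' → f u \ f v = f u' \ f v' → u = u' ∧ v = v') ∧
      (∀ u v, D.Adj u v → (f u \ f v).card < (f v).card) ∧
      (∀ u v, D.Adj u v →
        ((f u \ f v).card : ℤ) = min ((f u).card : ℤ) (((f v).card : ℤ) - 1)) := by
  classical
  have := Fintype.ofFinite V
  let e : Option (Sym2 V) ≃ Fin (Fintype.card (Option (Sym2 V))) := Fintype.equivFin _
  let c : V → V → Fin (Fintype.card (Option (Sym2 V))) := fun a b => e (some s(a, b))
  have hc : ∀ a b a' b', c a b = c a' b' ↔ (a = a' ∧ b = b') ∨ (a = b' ∧ b = a') := by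
    intro a b a' b'
    simp only [c, EmbeddingLike.apply_eq_iff_eq, Option.some.injEq, Sym2.eq_iff]
  let f : V → Finset (Fin (Fintype.card (Option (Sym2 V)))) := fun u => univ.image (c u)
  have hmem : ∀ a b u, c a b ∈ f u ↔ u = a ∨ u = b := by
    intro a b u
    simp only [f, mem_image, mem_univ, true_and, hc]
    constructor
    · rintro ⟨w, h | h⟩
      · exact Or.inl h.1
      · exact Or.inr h.1
    · rintro (h | h)
      · exact ⟨b, Or.inl ⟨h, rfl⟩⟩
      · exact ⟨a, Or.inr ⟨h, rfl⟩⟩
  have hcard : ∀ u, (f u).card = Fintype.card V := by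
    intro u
    rw [card_image_of_injective, card_univ]
    intro a b h
    rcases (hc _ _ _ _).1 h with h | h
    · exact h.2
    · exact h.2.trans h.1
  have hdiff : ∀ u v, u ≠ v → f u \ f v = (f u).erase (c u v) := by
    intro u v huv
    ext x
    simp only [mem_sdiff, mem_erase]
    constructor
    · rintro ⟨h1, h2⟩
      refine ⟨?_, h1⟩
      rintro rfl
      exact h2 ((hmem _ _ _).2 (Or.inr rfl))
    · rintro ⟨h1, h2⟩
      refine ⟨h2, fun h3 => h1 ?_⟩
      obtain ⟨w, -, rfl⟩ := mem_image.1 h2
      rcases (hmem _ _ _).1 h3 with h | h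
      · exact absurd h.symm huv
      · rw [h]
  have hne : ∀ u v, D.Adj u v → u ≠ v := by
    rintro u v h rfl
    exact hloop u h
  have hcd : ∀ u v, D.Adj u v → (f u \ f v).card + 1 = Fintype.card V := by
    intro u v h
    rw [hdiff u v (hne u v h), card_erase_add_one ((hmem _ _ _).2 (Or.inl rfl)), hcard]
  refine ⟨_, f, Fintype.card_pos, ?_, ?_, ?_, ?_⟩
  · intro u v h
    have : c u u ∈ f v := h ▸ (hmem u u u).2 (Or.inl rfl)
    rcases (hmem _ _ _).1 this with h | h <;> exact h.symm
  · intro u v u' v' h h' hg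
    have h1 : c u u ∈ f u \ f v := by
      rw [mem_sdiff, hmem, hmem]
      exact ⟨Or.inl rfl, fun hh => hne u v h (by rcases hh with hh | hh <;> exact hh.symm)⟩
    rw [hg, mem_sdiff, hmem] at h1
    have hu : u' = u := by rcases h1.1 with hh | hh <;> exact hh
    subst hu
    refine ⟨rfl, ?_⟩
    by_contra hv
    have h2 : c u' v ∈ f u' \ f v' := by
      rw [mem_sdiff, hmem, hmem]
      refine ⟨Or.inl rfl, ?_⟩
      rintro (hh | hh)
      · exact hne _ _ h' hh.symm
      · exact hv hh.symm
    rw [← hg, mem_sdiff, hmem, hmem] at h2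
    exact h2.2 (Or.inr rfl)
  · intro u v h
    have := hcd u v h
    rw [hcard]; omega
  · intro u v h
    have := hcd u v h
    rw [hcard, hcard]; omega

end Pool.Agent.Results.MP_95765a_co.AllDigraphs
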